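import Pool.Agent.Helper42.FR.All

set_option autoImplicit false

namespace Pool.Agent.Results.MP_3569d7_al.IrrationalFmr

open Pool.Agent.Helper81.Fmr

universe u

/-- Over every field there is a partial matrix whose fractional minimal rank is irrational. -/
theorem result (F : Type u) [Field F] :
    ∃ (m n : ℕ) (A : Matrix (Fin m) (Fin n) (Option F)), Irrational (fmr A) :=
  Pool.Agent.Helper42.FR.main F

end Pool.Agent.Results.MP_3569d7_al.IrrationalFmr
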