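import Pool.Agent.Helper81.FmrMain

set_option autoImplicit false

namespace Pool.Agent.Results.MP_3569d7_al.NotAttained

open Pool.Agent.Helper81.Fmr

universe u

/-- Over every field there is a partial matrix whose fractional minimal rank is not attained. -/
theorem result (F : Type u) [Field F] :
    ∃ (m n : ℕ) (A : Matrix (Fin m) (Fin n) (Option F)),
      ∀ b : ℕ+, fmr A < (mr A (b : ℕ) : ℝ) / ((b : ℕ) : ℝ) := by
  obtain ⟨p, hp⟩ := ExpChar.exists F
  have hp0 : p ≠ 0 := (expChar_pos F p).ne'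
  obtain ⟨q, rfl⟩ : ∃ q, p = q + 1 := ⟨p - 1, by omega⟩
  let e := (Fintype.equivFin (Fin 3 ⊕ Option ((Fin (q + 2) ⊕ Fin 6) × Fin 3))).symm
  let f := (Fintype.equivFin (Fin 3 ⊕ (((Fin (q + 2) ⊕ Fin 6) × Bool) ⊕ (Fin (q + 1) ⊕ Fin 5)))).symm
  refine ⟨_, _, (pm (TheSys F q)).submatrix e f, ?_⟩
  intro b
  have h := fmr_lt F q hp b
  have h2 : fmr ((pm (TheSys F q)).submatrix e f) = fmr (pm (TheSys F q)) := by
    unfold fmr
    congr 1
    ext b
    rw [mr_reindex]
  rw [h2, mr_reindex]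
  exact h

end Pool.Agent.Results.MP_3569d7_al.NotAttained
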